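import Pool.Agent.J6H7.BD.Top

set_option autoImplicit false

/-! # The motivic monodromy conjecture for forms over the determinantal ideals of block diagonal matrices

Let `X_1, …, X_k` be matrices with independent entries: for each `b < k` either the generic `m × n`
matrix or the generic symmetric `n × n` matrix (`Blk`), and let `M = diag(X_1, …, X_k)` be the block
diagonal matrix with these blocks (`blockMatrixZ S`, with `S b` the type of `X_b`). So the ideal
`I_p` of the `p`-minors of `M` is the sum of the products `∏ b, I_{q b}(X_b)` over all `q` with
`∑ b, q b = p`. Let `r = ∑ b, rk X_b` (`rkS S`) be the maximal rank of `M`. Let `p t < r`, `t < T`, be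
sizes of minors, which are distributed over `B` groups: `t` belongs to the group `β t`. For `b < B` let

  `F_b = ∑_J y_{b,J} ∏_{β t = b} M_{J t}(x)`,

where `J` runs over the choices of one minor `M_{J t}` of `M` of size `p t` for each `t` in the group
`b`, and the `y_{b,J}` are further variables. So `F_b` is the form over the product of the ideals
`I_{p t}`, `β t = b`. Let `f = ∏ b, F_b ^ a b`, `a b ≥ 1` (`bdFormZ`, with integral coefficients, `bdK` over a field).

For a tuple `d = (d_b)`, `d_b ≤ rk X_b`, with `d_b < rk X_b` for some `b` (`Loc S`), let `ν_d` be the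
codimension of the set `Z_d` of the `x` with `rank X_b ≤ d_b` for all `b`, the sum of the
`(m - d_b) (n - d_b)`, respectively `(n - d_b) (n - d_b + 1) / 2` (`Loc.codim`), and let
`N_d = ∑ t, a (β t) max (p t - ∑ b, d_b, 0)`. The set `bdPairs S p β a` consists of the pairs
`(-ν_d, N_d)` with `N_d > 0` and of the pairs `(-1, a b)`.

The motivic zeta function `Z_f^mot(T) = ∑_{d ≥ 0} [𝒳_{d,1}] 𝕃 ^ (-m d) T ^ d` of the problem
(`zetaM f Set.univ {1}`), `𝒳_{d,1}` the set of the `d`-jets `φ` with `f(φ) = t ^ d mod t ^ (d + 1)`, is
defined with the jets, over any field `K` of characteristic `0`.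
No resolution is used: the jets are divided according to the orders of the ideals `I_{p t}`, and
these are computed by a recursion: where an entry of a block is a unit (for symmetric blocks: an
entry of the diagonal, or a principal minor of size `2` of one block), the Schur complement reduces
to a smaller block diagonal matrix of the same kind; where `x(0) = 0` one divides by `t`, which gives
the denominators `1 - 𝕃 ^ (-ν_d) T ^ (N_d)`, `d` the tuple of the sizes of the pivots in the blocks;
the linear conditions on the jets of `y` give the denominators `1 - 𝕃 ^ (-1) T ^ (a b)`.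

The proof for the roots: a functional equation of `f` gives a functional equation of the product of
the powers of the ideals, with the same `b`, and the divisors `E_d` over the `Z_d` are Rees divisors of
this ideal: at a general point of `E_d` the exceptional coordinates are given by quotients of
minors, in a chart with the block diagonal matrix with the blocks
`X_b = (A_b, B_b; C_b, C_b A_b⁻¹ B_b + z Y_b)`, with one equation `z` for all the blocks; the roots
`-1 / a b` come from the strict transforms.

Since the roots of the Bernstein-Sato polynomial `b_f` give monodromy eigenvalues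
`exp(2 π i a / b)` of `f` at points of `f⁻¹(0)` (Malgrange, Kashiwara), this is the statement of Q1 for
`f`, and its strong form. -/

namespace Pool.Agent.Results.MP_432c1b_ag.BlockDiagonal

open MvPolynomial Pool.Agent.H628R4.TP Pool.Agent.TH192.DT Pool.Agent.TH192.MT
  Pool.Agent.TH192.MU Pool.Agent.W428.MOT Pool.Agent.W574.LM Pool.Agent.J6H7.BD

/-- **The motivic monodromy conjecture for `f = ∏ b, F_b ^ a b`**, `F_b` the forms over
products of ideals of minors of a block diagonal matrix with `k` independent generic or symmetric
blocks. For the pairs `(c, e)` in the set `bdPairs S p β a` of the pairs `(-ν_d, N_d)` and `(-1, a b)`,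
`c / e` is a root of every `b` with `b(s) f ^ s = P(s) f ^ (s + 1)`, in particular of the
Bernstein-Sato polynomial of `f`; and for every field `K` of characteristic `0` the motivic zeta
function `Z_f^mot(T) ∈ 𝓜_K[[T]]` lies in the ring generated by `T` and the
`1 / (1 - 𝕃 ^ c T ^ e)`. -/
theorem result {k : ℕ} (S : Fin k → Blk) (T B : ℕ) (p : Fin T → ℕ) (β : Fin T → Fin B)
    (a : Fin B → ℕ) (hp : ∀ t, p t < rkS S) (ha : ∀ b, 0 < a b) :
    (∀ q ∈ bdPairs S p β a, q.1 < 0 ∧ 0 < q.2 ∧
      ∀ b : Polynomial ℂ, IsBFunction (bdK S ℂ p β a) b →
        b.eval ((q.1 : ℂ) / q.2) = 0) ∧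
    ∀ (K : Type) [Field K] [CharZero K],
      zetaM (bdK S K p β a) Set.univ {1} ∈
        ratRing K (bdPairs S p β a : Set (ℤ × ℤ)) := by
  refine ⟨fun q hq => ?_, fun K _ _ => ?_⟩
  · have h := fam_roots β a (bd_sys S p hp) q hq
    exact ⟨h.1, h.2.1, h.2.2.1⟩
  · exact fam_zeta β a (bd_rat S K p hp) ha Constr.univ good_one

end Pool.Agent.Results.MP_432c1b_ag.BlockDiagonal
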