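import Pool.Agent.J6H85.CU.Glob

/-!
# The motivic monodromy conjecture for hypersurfaces: cubic polynomials suffice

`k` is a subfield of `ℂ`, `f ∈ k[x_1, …, x_n]` non-constant, `Z_f(T) = ∑_{d ≥ 0} [X_{d,1}] 𝕃 ^ (-n d) T ^ d` the
motivic zeta function of the problem (`zetaW f Set.univ`), in `𝓜_k[[T]]`. We reduce the conjecture (all
denominators `1 - 𝕃 ^ a T ^ b` of `Z_f` can be chosen such that `exp(2 π i a / b)` is a monodromy eigenvalue of
`f`) to polynomials `F = q_0(w) + ∑_i t_i q_i(w)`, `deg q_i ≤ 2`, with squarefree monomials (`Cub F`).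

`exp(2 π i a / b)` is a monodromy eigenvalue of `f` at some point of `X_0` if and only if the Bernstein-Sato
polynomial of `f` has a root in `a / b + ℤ` (Malgrange, Kashiwara), or equivalently every `b(s)` in a
functional equation of `f` has one (`EigSet f`; it is the set of these pairs `(a, b)`, `b > 0`).

* Over `𝓜_k` itself the conjecture without the condition `a < 0` is reduced (that there are denominators with
  `a < 0` is the theorem of Denef and Loeser; that these, and the ones from the eigenvalues, can be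
  chosen the same is not clear over `𝓜_k`, since this ring is not a domain).
* For the images of `Z_f` under the homomorphisms `θ : 𝓜_k → R` such that all `θ(𝕃) ^ i - 1`, `i ≥ 1`, are
  invertible (the universal one is `𝓜_k → 𝓜_k[(𝕃 ^ i - 1)⁻¹ : i ≥ 1]`) the conjecture with `a < 0` is
  reduced: here the theorem of Denef and Loeser and coprime denominators give the sign.
* For these images also the strong form (`a / b` is a root of `b_f`) is reduced.

Here the jets have angular component `1`, so the zeta function of `f + y z` is not determined by the one of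
`f`; those of `F` and of `F_1 = F + y z`, again such a cubic, determine `Z_f`.
-/

set_option autoImplicit false

namespace Pool.Agent.Results.MP_432c1b_ag.CubicsSuffice

open MvPolynomial Pool.Agent.W428.MOT Pool.Agent.J6H85.CU
open Pool.Agent.H628R4.TP (IsBFunction)
open Pool.Agent.N101.CB (Cub)
open Pool.Agent.Y229.MS (addyz itr)
open Pool.Agent.W375.MG (zetaW)

section
variable {k : Type} [Field k] [Algebra k ℂ] {n : ℕ}

/-- The pairs `(a, b)`, `b > 0`, such that every `b(s)` with `b(s) f ^ s = P(s) f ^ (s + 1)`, `P(s)` in the Weyl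
algebra, has a root in `a / b + ℤ`. By theorems of Malgrange and Kashiwara these are the pairs such that
`exp(2 π i a / b)` is a monodromy eigenvalue of `f` at some point of `X_0`. -/
def EigSet (f : MvPolynomial (Fin n) k) : Set (ℤ × ℤ) :=
  {p | 0 < p.2 ∧ ∀ b : Polynomial ℂ, IsBFunction (map (algebraMap k ℂ) f) b →
    ∃ m : ℤ, b.eval ((p.1 : ℂ) / p.2 + m) = 0}

/-- The pairs `(a, b)`, `b > 0`, such that `a / b` is a root of every such `b(s)`, that is, of `b_f`. -/
def RootSet (f : MvPolynomial (Fin n) k) : Set (ℤ × ℤ) :=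
  {p | 0 < p.2 ∧ ∀ b : Polynomial ℂ, IsBFunction (map (algebraMap k ℂ) f) b →
    b.eval ((p.1 : ℂ) / p.2) = 0}

/-- `Z_f(T)` is in `𝓜_k[T, 1 / (1 - 𝕃 ^ a T ^ b)]`, `(a, b) ∈ S`, for a finite subset `S` of `G`. -/
def Denom (f : MvPolynomial (Fin n) k) (G : Set (ℤ × ℤ)) : Prop :=
  ∃ S : Finset (ℤ × ℤ), (∀ p ∈ S, p ∈ G) ∧ zetaW f Set.univ ∈ ratRing k S

/-- The image of `Z_f(T)` under `θ : 𝓜_k → R` is in `R[T, 1 / (1 - θ(𝕃) ^ a T ^ b)]`, `(a, b) ∈ S`, for a finite
subset `S` of `G`. -/
def DenomIn {R : Type} [CommRing R] (θ : MK k →+* R) (f : MvPolynomial (Fin n) k)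
    (G : Set (ℤ × ℤ)) : Prop :=
  ∃ S : Finset (ℤ × ℤ), (∀ p ∈ S, p ∈ G) ∧ PowerSeries.map θ (zetaW f Set.univ) ∈ rat (Lw θ) S

/-- **The reduction of `f` to `F_j = itr F j = F + y_1 z_1 + ⋯ + y_j z_j`.** All `F_j` satisfy `Cub F_j`, their
monodromy eigenvalues are eigenvalues of `f`, and:
(1) the conjecture without the condition `a < 0` for `F` and `F_1` implies the one for `f`;
(2) the same for the images under every `θ : 𝓜_k → R`;
(3) if all `θ(𝕃) ^ i - 1`, `i ≥ 1`, are invertible, and if the image of `Z_f` has denominators with `a < 0`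
(the theorem of Denef and Loeser), then the conjecture for the images for `F` and `F_1` implies the
conjecture for the image for `f`;
(4) if all `θ(𝕃) ^ i - 1`, `i ≥ 1`, are invertible, then the strong form for the images for the `F_j`,
`j = 0, 1, 2, 3`, implies the strong form for `f`. -/
def ReducesTo {m : ℕ} (f : MvPolynomial (Fin n) k) (F : MvPolynomial (Fin m) k) : Prop :=
  F.totalDegree ≠ 0 ∧ (∀ j : ℕ, Cub (itr F j) ∧ EigSet (itr F j) ⊆ EigSet f) ∧
    (Denom F (EigSet F) → Denom (itr F 1) (EigSet (itr F 1)) → Denom f (EigSet f)) ∧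
    ∀ (R : Type) [CommRing R] (θ : MK k →+* R),
      (DenomIn θ F (EigSet F) → DenomIn θ (itr F 1) (EigSet (itr F 1)) →
        DenomIn θ f (EigSet f)) ∧
      ((∀ i : ℕ, 0 < i → IsUnit (θ (Lu k) ^ i - 1)) →
        (DenomIn θ f {p | p.1 < 0 ∧ 0 < p.2} →
          DenomIn θ F {p | p.1 < 0 ∧ p ∈ EigSet F} →
          DenomIn θ (itr F 1) {p | p.1 < 0 ∧ p ∈ EigSet (itr F 1)} →
          DenomIn θ f {p | p.1 < 0 ∧ p ∈ EigSet f}) ∧
        ((∀ j < 4, DenomIn θ (itr F j) (RootSet (itr F j))) → DenomIn θ f (RootSet f)))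

/-- The property `P` holds for all non-constant polynomials over `k` (`cub = false`), or for those with
`Cub f` (`cub = true`). -/
def ForAll (k : Type) [Field k] (cub : Bool) (P : ∀ n : ℕ, MvPolynomial (Fin n) k → Prop) :
    Prop :=
  ∀ (n : ℕ) (f : MvPolynomial (Fin n) k), (cub = true → Cub f) → f.totalDegree ≠ 0 → P n f

theorem map_id' {R : Type} [CommRing R] (z : PowerSeries R) :
    PowerSeries.map (RingHom.id R) z = z := by
  ext n
  rw [PowerSeries.coeff_map, RingHom.id_apply]

theorem Lw_id : Lw (RingHom.id (MK k)) = Lu k := Units.ext rfl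

theorem iff_rat {R : Type} [CommRing R] {u : Rˣ} {z : PowerSeries R} {G : Set (ℤ × ℤ)} :
    (∃ S : Finset (ℤ × ℤ), (∀ p ∈ S, p ∈ G) ∧ z ∈ rat u S) ↔ z ∈ rat u G := by
  constructor
  · rintro ⟨S, h1, h2⟩
    exact rat_mono _ (fun p hp => h1 p (Finset.mem_coe.1 hp)) h2
  · intro h
    obtain ⟨S, h1, h2⟩ := rat_finite u h
    exact ⟨S, fun p hp => h1 (Finset.mem_coe.2 hp), h2⟩

theorem denomIn_iff {R : Type} [CommRing R] (θ : MK k →+* R) (f : MvPolynomial (Fin n) k)
    (G : Set (ℤ × ℤ)) :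
    DenomIn θ f G ↔ PowerSeries.map θ (zetaW f Set.univ) ∈ rat (Lw θ) G := iff_rat

theorem denom_iff (f : MvPolynomial (Fin n) k) (G : Set (ℤ × ℤ)) :
    Denom f G ↔ DenomIn (RingHom.id (MK k)) f G := by
  unfold DenomIn
  rw [map_id', Lw_id]
  exact Iff.rfl

theorem charZero (k : Type) [Field k] [Algebra k ℂ] : CharZero k :=
  RingHom.charZero (algebraMap k ℂ)

theorem eig_sub {m κ : ℕ} {f : MvPolynomial (Fin n) k} {F : MvPolynomial (Fin m) k}
    (h : Rc f F κ) (hf : f.totalDegree ≠ 0) (j : ℕ) : EigSet (itr F j) ⊆ EigSet f := by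
  intro p hp
  have h1 := (h.sh hf j).weak (fun b hb => fe_neg_one hf hb) ⟨p, hp, rfl⟩
  refine ⟨hp.1, fun b hb => ?_⟩
  obtain ⟨l, hl⟩ := h1.2 b hb
  refine ⟨l + ((κ + j : ℕ) : ℤ), ?_⟩
  simp only at hl
  rw [div_shift p hp.1] at hl
  have e : (p.1 : ℂ) / p.2 + ((l + ((κ + j : ℕ) : ℤ) : ℤ) : ℂ) =
      (p.1 : ℂ) / p.2 + ((κ + j : ℕ) : ℂ) + (l : ℂ) := by
    push_cast
    ring
  rw [e]
  exact hl

theorem reduces {m κ : ℕ} {f : MvPolynomial (Fin n) k} {F : MvPolynomial (Fin m) k}
    (h : Rc f F κ) (hm : m = n + 2 * κ) (hF : Cub F) (hf : f.totalDegree ≠ 0) :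
    ReducesTo f F := by
  have hk : CharZero k := charZero k
  have key : ∀ (R : Type) [CommRing R] (θ : MK k →+* R),
      DenomIn θ F (EigSet F) → DenomIn θ (itr F 1) (EigSet (itr F 1)) →
        DenomIn θ f (EigSet f) := by
    intro R _ θ h1 h2
    rw [denomIn_iff] at h1 h2 ⊢
    refine glob_weak θ hf h hm fun j hj => ?_
    interval_cases j
    · exact h1
    · exact h2
  refine ⟨h.deg hf, fun j => ⟨cub_itr hF j, eig_sub h hf j⟩, fun h1 h2 => ?_,
    fun R _ θ => ⟨key R θ, fun hu => ⟨fun h0 h1 h2 => ?_, fun h1 => ?_⟩⟩⟩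
  · rw [denom_iff] at h1 h2 ⊢
    exact key (MK k) _ h1 h2
  · rw [denomIn_iff] at h0 h1 h2 ⊢
    have h3 := key R θ ((denomIn_iff _ _ _).2 (rat_mono _ (fun p hp => hp.2) h1))
      ((denomIn_iff _ _ _).2 (rat_mono _ (fun p hp => hp.2) h2))
    rw [denomIn_iff] at h3
    exact neg_part hu (fun p hp => hp.1) (QW_ratio (FE f)) h3 h0
  · rw [denomIn_iff]
    have h2 := glob_loc θ hu h hm (FE f) (fun j => FE (itr F j)) (fun j => h.sh hf j)
      fun j hj => (denomIn_iff _ _ _).1 (h1 j hj)
    exact of_fst_f (fun b hb => fe_neg_one hf hb) h2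

end

/-- **Cubic polynomials suffice for the motivic monodromy conjecture for hypersurfaces.**

(1) For every non-constant `f ∈ k[x_1, …, x_n]` there are `κ` and a polynomial `F` in `n + 2 κ` variables,
such that the conjecture for `f` is reduced to the cubics `F_j = F + y_1 z_1 + ⋯ + y_j z_j` (`ReducesTo`).
(2) The conjecture without the condition `a < 0` holds for all non-constant polynomials over `k` if and
only if it holds for those with `Cub f`.
(3) Let `θ : 𝓜_k → R` be such that all `θ(𝕃) ^ i - 1`, `i ≥ 1`, are invertible. Assume the theorem of Denef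
and Loeser for the images under `θ`: they have denominators with `a < 0 < b`. Then the conjecture (with
`a < 0`) for the images under `θ` holds for all non-constant polynomials over `k` if and only if it holds
for those with `Cub f`.
(4) For such `θ` the strong form for the images under `θ` holds for all non-constant polynomials over `k`
if and only if it holds for those with `Cub f`. -/
theorem result (k : Type) [Field k] [Algebra k ℂ] :
    (∀ (n : ℕ) (f : MvPolynomial (Fin n) k), f.totalDegree ≠ 0 →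
      ∃ (κ : ℕ) (F : MvPolynomial (Fin (n + 2 * κ)) k), ReducesTo f F) ∧
    (ForAll k false (fun _ f => Denom f (EigSet f)) ↔
      ForAll k true (fun _ f => Denom f (EigSet f))) ∧
    ∀ (R : Type) [CommRing R] (θ : MK k →+* R), (∀ i : ℕ, 0 < i → IsUnit (θ (Lu k) ^ i - 1)) →
      (ForAll k false (fun _ f => DenomIn θ f {p | p.1 < 0 ∧ 0 < p.2}) →
        (ForAll k false (fun _ f => DenomIn θ f {p | p.1 < 0 ∧ p ∈ EigSet f}) ↔
          ForAll k true (fun _ f => DenomIn θ f {p | p.1 < 0 ∧ p ∈ EigSet f}))) ∧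
      (ForAll k false (fun _ f => DenomIn θ f (RootSet f)) ↔
        ForAll k true (fun _ f => DenomIn θ f (RootSet f))) := by
  have key : ∀ (n : ℕ) (f : MvPolynomial (Fin n) k), f.totalDegree ≠ 0 →
      ∃ (κ : ℕ) (F : MvPolynomial (Fin (n + 2 * κ)) k), ReducesTo f F := by
    intro n f hf
    obtain ⟨κ, m, F, hm, hF, h⟩ := exists_cubic f
    subst hm
    exact ⟨κ, F, reduces h rfl hF hf⟩
  have hfl : ∀ {n : ℕ} (f : MvPolynomial (Fin n) k), false = true → Cub f :=
    fun f h => absurd h (by decide)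
  refine ⟨key, ⟨fun h n f _ hf => h n f (hfl f) hf, fun h n f _ hf => ?_⟩, fun R _ θ hu =>
    ⟨fun h0 => ⟨fun h n f _ hf => h n f (hfl f) hf, fun h n f _ hf => ?_⟩,
    ⟨fun h n f _ hf => h n f (hfl f) hf, fun h n f _ hf => ?_⟩⟩⟩
  · obtain ⟨κ, F, hF, hc, h1, -⟩ := key n f hf
    exact h1 (h _ F (fun _ => (hc 0).1) hF)
      (h _ (itr F 1) (fun _ => (hc 1).1) (itr_deg hF 1))
  · obtain ⟨κ, F, hF, hc, -, h1⟩ := key n f hf
    exact ((h1 R θ).2 hu).1 (h0 n f (hfl f) hf) (h _ F (fun _ => (hc 0).1) hF)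
      (h _ (itr F 1) (fun _ => (hc 1).1) (itr_deg hF 1))
  · obtain ⟨κ, F, hF, hc, -, h1⟩ := key n f hf
    exact ((h1 R θ).2 hu).2 fun j _ => h _ (itr F j) (fun _ => (hc j).1) (itr_deg hF j)

end Pool.Agent.Results.MP_432c1b_ag.CubicsSuffice
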